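import Pool.Agent.Helper26.HW.Stmts
import Pool.Agent.Helper81.HV.SUMZ

/-!
# Sum over the scales (row SUMZ0 of the sheet `Pool.Agent.Helper26.HW.Stmts`, after helper81)
-/

set_option autoImplicit false

namespace Pool.Agent.Helper92.HW

open MeasureTheory Filter Pool.Agent.Helper95 Pool.Agent.Helper95.PW Pool.Agent.Helper95.LN
open Pool.Agent.Helper95.HV Pool.Agent.Helper26.HW Pool.Agent.Helper81.HV

theorem SUMZ0 (h1 : ST_PSZ) (h2 : ST_PIZ) (h3 : ST_PRZ0) (h4 : ST_FLD) : ST_SUMZ0 := by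
  intro d hd hd1
  obtain ⟨C1, hC1, hP⟩ := h1 d hd hd1
  obtain ⟨C2, hC2, hI⟩ := h2 d hd hd1
  obtain ⟨C3, hC3, hR⟩ := h3 d hd hd1
  obtain ⟨K, hK, hF⟩ := h4
  obtain ⟨q, hq⟩ : ∃ q : ℝ, q = (2:ℝ) ^ (-(1 / 5) : ℝ) := ⟨_, rfl⟩
  have hq1 : q < 1 := by
    rw [hq]
    exact Real.rpow_lt_one_of_one_lt_of_neg (by norm_num) (by norm_num)
  have hq2 : 0 < 1 - q := by linarith
  obtain ⟨D, hD⟩ : ∃ D : ℝ, D = Real.sqrt (Real.sqrt (80 * C2)) +
    Real.sqrt (Real.sqrt (80 * C1)) / (1 - q) := ⟨_, rfl⟩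
  have hDp : 0 < D := by rw [hD]; positivity
  obtain ⟨c3, hc3⟩ : ∃ c3 : ℝ, c3 = Real.sqrt (Real.sqrt (2 * C3)) := ⟨_, rfl⟩
  have hc3p : 0 < c3 := by rw [hc3]; positivity
  obtain ⟨c4, hc4⟩ : ∃ c4 : ℝ, c4 = (8 / d) ^ (17 / 15 : ℝ) := ⟨_, rfl⟩
  have hc4p : 0 < c4 := by rw [hc4]; positivity
  refine ⟨3 * (c3 + D * c4) ^ 2, by positivity, ?_⟩
  intro z E n M X Z φ G hDat hM hE hG
  have hz1 := hDat.z1
  have hz0 : 0 < z := by linarith
  have hM1 : (1:ℝ) ≤ M := by exact_mod_cast hM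
  have hM0 : (0:ℝ) < M := by linarith
  obtain ⟨J, hJ1, hJ2⟩ := exists_nat_pow_near hz1 (by norm_num : (1:ℝ) < 2)
  obtain ⟨N, hNdef⟩ : ∃ N : ℝ, N = 2 ^ J * (8 / d) := ⟨_, rfl⟩
  have hJp : (0:ℝ) < 2 ^ J := by positivity
  have h8 : 8 ≤ 8 / d := by
    rw [le_div_iff₀ hd]
    nlinarith
  have hzN : z ≤ N := by
    rw [pow_succ] at hJ2
    rw [hNdef]
    nlinarith
  have hNz : N ≤ (8 / d) * z := by
    rw [hNdef, mul_comm]
    exact mul_le_mul_of_nonneg_left hJ1 (by positivity)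
  have hN1 : 1 ≤ N := hz1.trans hzN
  have hN0 : 0 < N := by linarith
  have hJN : 2 ^ J / N = d / 8 := by
    rw [hNdef]
    field_simp
  have hd8 : d / 8 ≤ d / 4 := by linarith
  have w1 : z ^ (7 / 3 : ℝ) ≤ N ^ (7 / 3 : ℝ) := Real.rpow_le_rpow hz0.le hzN (by norm_num)
  have w2 : z ^ (13 / 3 : ℝ) ≤ N ^ (13 / 3 : ℝ) := Real.rpow_le_rpow hz0.le hzN (by norm_num)
  have z73 : 0 < z ^ (7 / 3 : ℝ) := Real.rpow_pos_of_pos hz0 _
  have z133 : 0 < z ^ (13 / 3 : ℝ) := Real.rpow_pos_of_pos hz0 _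
  have hsc : ∀ (m : Fin 3) (r : ℝ), 0 < r → r ≤ d / 4 → Scale (gN X m r) K r :=
    fun m r hr hr4 => (hF M X d r r m hd hDat.sep hr le_rfl hr4).1
  have key : ∀ m : Fin 3, Real.sqrt (PW.sq (PG (gN X m (d / 8)) φ G)) ≤
      (D * Real.sqrt M) * N ^ (17 / 15 : ℝ) := by
    intro m
    have h := sumz_abs (N := N) (C1 := C1 * (M : ℝ) ^ 2) (C2 := C2 * (M : ℝ) ^ 2) (q := q) hN1
      (by positivity) (by positivity) hq (fun r => PW.sq (PG (gN X m r) φ G))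
      (fun r => PW.sq (PG (fun y => gN X m (2 * r) y - gN X m r y) φ G)) J ?_ ?_ ?_
    · rw [hJN] at h
      refine h.trans (le_of_eq ?_)
      have hs : ∀ C : ℝ, 0 < C → Real.sqrt (Real.sqrt (80 * (C * (M : ℝ) ^ 2))) =
          Real.sqrt (Real.sqrt (80 * C)) * Real.sqrt M := by
        intro C hC
        have e : 80 * (C * (M : ℝ) ^ 2) = (80 * C) * (M : ℝ) ^ 2 := by ring
        rw [e, Real.sqrt_mul (by positivity), Real.sqrt_sq (by positivity),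
          Real.sqrt_mul (by positivity)]
      rw [hs C1 hC1, hs C2 hC2, hD]
      ring
    · intro r hr hrJ
      rw [hJN] at hrJ
      have g := hP z E r _ n M X Z φ G m hDat hM hE hG hr (hrJ.trans hd8) rfl
      refine g.trans ?_
      have hν : 1 + (z ^ (7 / 3 : ℝ) * r ^ 2) ^ (3 / 5 : ℝ) ≤
          1 + (N ^ (7 / 3 : ℝ) * (2 * r) ^ 2) ^ (3 / 5 : ℝ) := by
        have e1 : z ^ (7 / 3 : ℝ) * r ^ 2 ≤ N ^ (7 / 3 : ℝ) * (2 * r) ^ 2 := by
          have : r ^ 2 ≤ (2 * r) ^ 2 := by nlinarith [sq_nonneg r]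
          exact mul_le_mul w1 this (sq_nonneg r) (by positivity)
        have e2 := Real.rpow_le_rpow (by positivity) e1 (by norm_num : (0:ℝ) ≤ 3 / 5)
        linarith
      have hν0 : 0 ≤ 1 + (z ^ (7 / 3 : ℝ) * r ^ 2) ^ (3 / 5 : ℝ) := by positivity
      gcongr
    · have hr : 0 < 1 / N := by positivity
      have hr4 : 1 / N ≤ d / 4 := by
        have e1 : 1 / N ≤ 2 ^ J / N := by
          gcongr
          exact one_le_pow₀ (by norm_num)
        rw [hJN] at e1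
        exact e1.trans hd8
      have g := hI z E (1 / N) _ n M X Z φ G m hDat hM hE hG hr hr4 rfl
      refine g.trans ?_
      have hν : 1 + (z ^ (7 / 3 : ℝ) * (1 / N) ^ 2) ^ (3 / 5 : ℝ) ≤
          1 + (N ^ (7 / 3 : ℝ) * (1 / N) ^ 2) ^ (3 / 5 : ℝ) := by
        have e1 : z ^ (7 / 3 : ℝ) * (1 / N) ^ 2 ≤ N ^ (7 / 3 : ℝ) * (1 / N) ^ 2 :=
          mul_le_mul_of_nonneg_right w1 (sq_nonneg _)
        have e2 := Real.rpow_le_rpow (by positivity) e1 (by norm_num : (0:ℝ) ≤ 3 / 5)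
        linarith
      have hν0 : 0 ≤ 1 + (z ^ (7 / 3 : ℝ) * (1 / N) ^ 2) ^ (3 / 5 : ℝ) := by positivity
      gcongr
    · intro r hr hrJ
      rw [hJN] at hrJ
      have c1 := hsc m (2 * r) (by linarith) (hrJ.trans hd8)
      have c2 := hsc m r hr (by linarith)
      have c3' := (hF M X d r (2 * r) m hd hDat.sep hr (by linarith) (hrJ.trans hd8)).2.1
      rw [MOM2_PG_split c1.sm c2.sm φ G]
      exact MOM2_tri _ _ (MOMM_memLp c3' hG.lp hG.lpG) (MOMM_memLp c2 hG.lp hG.lpG)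
  have hm : ∀ m : Fin 3, PW.sq (fun s x => ∑ k, G k m s x) ≤
      (c3 + D * c4) ^ 2 * (M * z ^ (34 / 15 : ℝ)) := by
    intro m
    have c2 := hsc m (d / 8) (by positivity) hd8
    have mG : ∀ s, MemLp (fun x => ∑ k, G k m s x) 2 := fun s =>
      memLp_finsetSum _ fun k _ => hG.lpG k m s
    have mP : ∀ s, MemLp (PG (gN X m (d / 8)) φ G s) 2 := MOMM_memLp c2 hG.lp hG.lpG
    have t1 := MOM2_tri (fun s x => (∑ k, G k m s x) - PG (gN X m (d / 8)) φ G s x)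
      (PG (gN X m (d / 8)) φ G) (fun s => (mG s).sub (mP s)) mP
    simp only [sub_add_cancel] at t1
    have t2 := key m
    have t3 : N ^ (17 / 15 : ℝ) ≤ c4 * z ^ (17 / 15 : ℝ) := by
      rw [hc4, ← Real.mul_rpow (by positivity) hz0.le]
      exact Real.rpow_le_rpow hN0.le hNz (by norm_num)
    have g := hR z E n M X Z φ G m hDat hM hE hG
    have g2 : PW.sq (fun s x => (∑ k, G k m s x) - PG (gN X m (d / 8)) φ G s x) ^ 2 ≤
        (2 * C3) * (M * z ^ (34 / 15 : ℝ)) ^ 2 := by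
      refine g.trans ?_
      have e1 : z ^ (10 / 3 : ℝ) ≤ z ^ (68 / 15 : ℝ) :=
        Real.rpow_le_rpow_of_exponent_le hz1 (by norm_num)
      have e2 : (z ^ (34 / 15 : ℝ)) ^ 2 = z ^ (68 / 15 : ℝ) := by
        rw [← Real.rpow_natCast, ← Real.rpow_mul hz0.le]
        norm_num
      rw [mul_pow, e2]
      have e3 : C3 * (M : ℝ) ^ 2 * z ^ (10 / 3 : ℝ) ≤
          C3 * (M : ℝ) ^ 2 * z ^ (68 / 15 : ℝ) :=
        mul_le_mul_of_nonneg_left e1 (by positivity)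
      have e5 : 0 ≤ C3 * (M : ℝ) ^ 2 * z ^ (68 / 15 : ℝ) := by positivity
      linarith
    have sq0 : 0 ≤ PW.sq (fun s x => (∑ k, G k m s x) - PG (gN X m (d / 8)) φ G s x) :=
      MOM2_sq_nonneg _
    have zp : 0 < z ^ (34 / 15 : ℝ) := Real.rpow_pos_of_pos hz0 _
    have g3 : Real.sqrt (PW.sq (fun s x => (∑ k, G k m s x) -
        PG (gN X m (d / 8)) φ G s x)) ≤ c3 * (Real.sqrt M * z ^ (17 / 15 : ℝ)) := by
      have e1 := Real.sqrt_le_sqrt g2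
      rw [Real.sqrt_sq sq0, Real.sqrt_mul (by positivity), Real.sqrt_sq (by positivity)] at e1
      have e2 := Real.sqrt_le_sqrt e1
      refine e2.trans (le_of_eq ?_)
      have e4 : Real.sqrt (z ^ (34 / 15 : ℝ)) = z ^ (17 / 15 : ℝ) := by
        rw [Real.sqrt_eq_rpow, ← Real.rpow_mul hz0.le]
        norm_num
      rw [Real.sqrt_mul (Real.sqrt_nonneg _), hc3, Real.sqrt_mul hM0.le, e4]
    have g4 : Real.sqrt (PW.sq (fun s x => ∑ k, G k m s x)) ≤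
        (c3 + D * c4) * (Real.sqrt M * z ^ (17 / 15 : ℝ)) := by
      have e1 : D * Real.sqrt M * N ^ (17 / 15 : ℝ) ≤
          D * Real.sqrt M * (c4 * z ^ (17 / 15 : ℝ)) :=
        mul_le_mul_of_nonneg_left t3 (by positivity)
      have e2 : (c3 + D * c4) * (Real.sqrt M * z ^ (17 / 15 : ℝ)) =
          c3 * (Real.sqrt M * z ^ (17 / 15 : ℝ)) +
            D * Real.sqrt M * (c4 * z ^ (17 / 15 : ℝ)) := by ring
      rw [e2]
      linarith
    have g5 := (Real.sqrt_le_iff.mp g4).2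
    refine g5.trans (le_of_eq ?_)
    rw [mul_pow, mul_pow, Real.sq_sqrt hM0.le, ← Real.rpow_natCast (z ^ (17 / 15 : ℝ)),
      ← Real.rpow_mul hz0.le]
    norm_num
  have hfin : mom G ≤ 3 * ((c3 + D * c4) ^ 2 * (M * z ^ (34 / 15 : ℝ))) := by
    unfold mom
    refine (Finset.sum_le_sum fun i _ => hm i).trans (le_of_eq ?_)
    simp
  linarith

end Pool.Agent.Helper92.HW
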